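import Pool.Agent.Helper24.SE.Acyc
import Mathlib.CategoryTheory.Preadditive.Opposite
import Mathlib.Algebra.Homology.ShortComplex.Preadditive

/-!
# The local-global complex for zero-cycles and exceptional sets with a power saving

Let `C` be the category of Chow motives over `ℚ` with integral coefficients. For a motive `N` let `S(N)` be
the complex of abelian groups which for `N = h(X)`, `X` smooth and projective over `ℚ`, is the complex
`lim CH_0(X)/n → ∏_v lim CH_0(X_v)^*/n → Hom(Br(X), ℚ/ℤ)` of question Q1 (`v` runs over the places of `ℚ`).
Correspondences act on it, so it is a contravariant additive functor of `N`. Let `E(N)` be its homology in the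
middle, `ker b / im a`. A smooth projective geometrically integral variety `X` over a number field `k` is also
a smooth projective scheme over `ℚ`, with the same complex (the scheme `X ⊗ ℚ_v` is the disjoint union of the
`X ⊗ k_w`, `w | v`), so that Q1 for `X` over `k` is `E(h(X)) = 0` for the scheme `X` over `ℚ`. The functor `E` is zero
on the point and on the motives `h(Y)(n)`, `n < 0`, which are summands of the `h(Y × ℙ^m)`, since
`CH_0(Y × ℙ^m) = CH_0(Y)`.

For a separated scheme `X` of finite type over `ℚ` let `W(X)` be its weight complex with compact supports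
(Gillet, Soulé), a bounded complex of Chow motives with integral coefficients, well defined up to homotopy. For
`F ∈ ℤ[x_1, …, x_r]` let `D(F)` be the complement of the (singular, reducible) hypersurface `F = 0` in the affine
space over `ℚ`. We call `F` an exception if the complex of abelian groups `E(W(D(F)))` is not acyclic. Let
`Box(D, B)` be the finite set of the `F` of degree at most `D` in each variable, for which the sum of the
absolute values of the coefficients is at most `B`, and `Exc(D, B)` the set of the exceptions in the box.

Let `Var` be the set of the smooth projective geometrically integral varieties over number fields.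

**Theorem.** (1) Q1 is true for all varieties of dimension at most `d` over all number fields if and only if
the exceptional sets in `d + 1` variables have a power saving: for some `ε > 0` there are infinitely many `D`
and for these infinitely many `B` such that `#Exc(D, B) ≤ #Box(D, B) ^ (1 - ε)`.

(2) Q1 is true for all varieties over all number fields if and only if the exceptional sets in `r` variables
have a power saving, for infinitely many `r`.

(3) A zero–one law: if there is one exception in `r` variables, then for every `ε > 0`, for all large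
`D` and all large `B` (depending on `D`) there are more than `#Box(D, B) ^ (1 - ε)` exceptions.

(4) If the hypersurfaces `F = 0` and `G = 0` in the affine space over `ℚ` are disjoint and `F` is an
exception, then `G` or `F G` is an exception.
-/

set_option autoImplicit false
set_option linter.checkUnivs false
set_option linter.unusedSectionVars false

open CategoryTheory Limits AlgebraicGeometry Filter Pool.Agent.Y116.UV
  Pool.Agent.Q282.UM Pool.Agent.Q282.UK Pool.Agent.Helper62.EC Pool.Agent.Helper24.KD

open Pool.Agent.Helper24.SE (Box Exc Saving Acy)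

universe v u

namespace Pool.Agent.Results.MP_bd895b_nt.PowerSaving

/-- The complement `D(F) : F ≠ 0` in the affine space over `ℚ`. -/
noncomputable def princ {r : ℕ} (F : MvPolynomial (Fin r) ℤ) : Sch ℚ :=
  aff ℚ (Localization.Away (MvPolynomial.map (algebraMap ℤ ℚ) F))

/-- The category `C` of Chow motives over `ℚ` with integral coefficients, with

* the motives `h(X)`, the Tate twists `N(n)` and the weight complexes `W(X)` (`Weights`);
* the complex `S(N)` of Q1;
* the set `Var` of the varieties over number fields in Q1, their dimensions and the statements `Q V`: Q1 is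
  true for `V`. -/
structure Mot where
  C : Type u
  [cat : Category.{v} C]
  [pre : Preadditive C]
  [zero : HasZeroObject C]
  [bin : HasBinaryBiproducts C]
  [fin : HasFiniteBiproducts C]
  D : Weights ℚ C
  S : Cᵒᵖ ⥤ ShortComplex AddCommGrpCat.{0}
  [additive : S.Additive]
  Var : Type
  dim : Var → ℕ
  Q : Var → Prop

attribute [instance] Mot.cat Mot.pre Mot.zero Mot.bin Mot.fin Mot.additive

variable (M : Mot.{v, u})

/-- The homology `E(N) = ker b / im a` of `S(N)`, as a functor to the opposite category of the abelian
groups. -/
noncomputable def Mot.E : M.C ⥤ AddCommGrpCat.{0}ᵒᵖ :=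
  (M.S ⋙ ShortComplex.homologyFunctor AddCommGrpCat.{0}).rightOp

instance : M.E.Additive := by
  unfold Mot.E
  infer_instance

/-- The known properties.

* `weight`: the weight complexes (with integral coefficients, Gillet and Soulé);
* `points`: the complex `S(h(Y))` is exact for `dim Y = 0` (class field theory);
* `twists`: the complex `S(h(Y)(n))` is exact for `n < 0` (its second term is zero);
* `model`: every `V` in `Var` is a smooth projective scheme over `ℚ`, with the same complex;
* `parts`: a smooth projective scheme over `ℚ` of dimension at most `d` is a finite disjoint union of `V` in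
  `Var` of dimension at most `d`, and its complex is the sum of theirs. -/
structure Known : Prop where
  weight : IsWeightComplex M.D
  points : ∀ Y : Sch ℚ, IsSmoothProjective Y → topologicalKrullDim Y.left ≤ (0 : ℕ) →
    (M.S.obj (Opposite.op (M.D.h Y))).Exact
  twists : ∀ (n : ℤ) (Y : Sch ℚ), n < 0 → IsSmoothProjective Y →
    (M.S.obj (Opposite.op ((M.D.tw n).obj (M.D.h Y)))).Exact
  model : ∀ V : M.Var, ∃ X : Sch ℚ, IsSmoothProjective X ∧
    topologicalKrullDim X.left ≤ M.dim V ∧ (M.Q V ↔ (M.S.obj (Opposite.op (M.D.h X))).Exact)
  parts : ∀ (X : Sch ℚ) (d : ℕ), IsSmoothProjective X → topologicalKrullDim X.left ≤ d →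
    (∀ V : M.Var, M.dim V ≤ d → M.Q V) → (M.S.obj (Opposite.op (M.D.h X))).Exact

/-- `F` is an exception: the complex `E(W(D(F)))` is not acyclic. -/
def Exception {r : ℕ} (F : MvPolynomial (Fin r) ℤ) : Prop := ¬ Acy M.E (M.D.W (princ F))

variable {M} in
lemma zero_iff (N : M.C) : IsZero (M.E.obj N) ↔ (M.S.obj (Opposite.op N)).Exact := by
  rw [ShortComplex.exact_iff_isZero_homology]
  constructor
  · intro h
    exact h.unop
  · intro h
    exact h.op

variable {M} in
lemma low (hM : Known M) (n : ℤ) (Y : Sch ℚ) (hn : n ≤ 0) (hY : IsSmoothProjective Y)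
    (hd : topologicalKrullDim Y.left ≤ (0 : ℕ)) : IsZero (M.E.obj ((M.D.tw n).obj (M.D.h Y))) := by
  rcases hn.lt_or_eq with h | rfl
  · exact (zero_iff _).mpr (hM.twists n Y h hY)
  · obtain ⟨e⟩ := hM.weight.tw_zero
    exact ((zero_iff _).mpr (hM.points Y hY hd)).of_iso (M.E.mapIso (e.app (M.D.h Y)))

/-- **The local-global complex for zero-cycles and exceptional sets with a power saving.** See the
explanations above. -/
theorem result (M : Mot.{v, u}) (hM : Known M) :
    -- (1) dimension at most `d`
    (∀ d : ℕ, (∀ V : M.Var, M.dim V ≤ d → M.Q V) ↔ Saving (r := d + 1) (Exception M)) ∧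
    -- (2) all dimensions
    ((∀ V : M.Var, M.Q V) ↔ ∃ᶠ r : ℕ in atTop, Saving (r := r) (Exception M)) ∧
    -- (3) the zero-one law
    (∀ (r : ℕ) (G : MvPolynomial (Fin r) ℤ), Exception M G → ∀ ε : ℝ, 0 < ε →
      ∀ᶠ D : ℕ in atTop, ∀ᶠ B : ℕ in atTop,
        ((Box r D B).ncard : ℝ) ^ (1 - ε) < ((Exc (r := r) (Exception M) D B).ncard : ℝ)) ∧
    -- (4) disjoint hypersurfaces
    ∀ (r : ℕ) (F G : MvPolynomial (Fin r) ℤ),
      Ideal.span {MvPolynomial.map (algebraMap ℤ ℚ) G} ⊔
        Ideal.span {MvPolynomial.map (algebraMap ℤ ℚ) F} = ⊤ →
      Exception M F → Exception M G ∨ Exception M (F * G) := by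
  have hd : ∀ d : ℕ, (∀ V : M.Var, M.dim V ≤ d → M.Q V) ↔
      ∀ Y : Sch ℚ, IsSmoothProjective Y → topologicalKrullDim Y.left ≤ d →
        IsZero (M.E.obj (M.D.h Y)) := by
    intro d
    constructor
    · exact fun h Y hY hd => (zero_iff _).mpr (hM.parts Y d hY hd h)
    · intro h V hV
      obtain ⟨X, h1, h2, h3⟩ := hM.model V
      exact h3.mpr ((zero_iff _).mp (h X h1 (h2.trans (by exact_mod_cast hV))))
  have h1 : ∀ d : ℕ, (∀ V : M.Var, M.dim V ≤ d → M.Q V) ↔
      Saving (r := d + 1) (Exception M) := fun d =>
    (hd d).trans (Pool.Agent.Helper24.SE.aw_dim_iff M.E hM.weight (low hM) d)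
  refine ⟨h1, ?_, fun r G hG ε hε => ?_, fun r F G hFG hF => ?_⟩
  · constructor
    · exact fun h => frequently_atTop.mpr fun a => ⟨a + 1, by omega, (h1 a).mp fun V _ => h V⟩
    · intro h V
      obtain ⟨r, hr, hrV⟩ := (h.and_eventually (eventually_ge_atTop (M.dim V + 1))).exists
      obtain ⟨d, rfl⟩ : ∃ d, r = d + 1 := ⟨r - 1, by omega⟩
      exact (h1 d).mpr hr V (by omega)
  · exact Pool.Agent.Helper24.SE.aw_full M.E hM.weight (low hM) hG hε
  · exact Pool.Agent.Helper24.SE.aw_disjoint M.E hM.weight (low hM) F G hFG hF

end Pool.Agent.Results.MP_bd895b_nt.PowerSaving
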