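import Mathlib
import Pool.Agent.Helper47.GL.Var

/-!
# Zero-cycles on everywhere locally soluble cyclic covers of arbitrary varieties

Let `k` be a number field and `ℓ` a prime number that does not divide the degree of `k`.  Let `V` be a
smooth projective geometrically integral variety over `k` of any dimension `m + 1 ≥ 1`.  There are
functions `t_1, …, t_m` on `V` such that the generic fibre of `t : V → 𝔸^m` is a geometrically
irreducible curve (theorem of Bertini).  Let `x` be a function on `V` transcendental over `k(t)`.  There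
is a function `y`, integral over `𝓞_k[t, x]`, with `k(V) = k(t, x, y)`; so `V` is a smooth projective
model of a hypersurface `G(t, x, y) = 0`, where `G ∈ 𝓞_k[t][x][y]` is monic in `y` and irreducible over the
algebraic closure of `k(t)`.  (Every `V` has many such models; for `m = 0` these are plane curves.)
Suppose that `V` has points over all completions of `k`.  We show: for every finite set `S` of places,
which contains all infinite places, all points `P_v ∈ V(k_v)`, `v ∈ S`, of the affine model with
`∂G/∂y ≠ 0`, and every `N`, there are a prime number `r > N`, a prime number `p > N`, a surjective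
homomorphism `χ : (ℤ/p)^* → ℤ/ℓ` with `χ(-1) = 0`, and coprime monic separable polynomials `M`, `M'` in
`k[x]`, whose degrees are divisible by `ℓ` and at least `N`, such that

  `C : r w^ℓ = M(x) M'(x)`   and   `W : r w^ℓ = M(x) M'(x), G(t, x, y) = 0`,

(`W` is a cyclic cover of degree `ℓ` of `V`, and has a dominant map to the superelliptic curve `C`) and
the class `A = (M(x), χ)` of the cyclic algebra which belongs to `M(x)` and the cyclic extension of
degree `ℓ` in the field of the `p`-th roots of unity given by `χ`, have the following properties.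

* `W` is geometrically irreducible, and has points over all completions of `k`, and the given points
  `P_v`, `v ∈ S`, lift to `W`.
* `A` is unramified, so it belongs to the Brauer group of `C`, and (its pull-back) to the one of every
  smooth projective model of `W`.
* For every number field `L ⊇ k` and every adelic zero-cycle on `C` over `L`, whose degrees at the finite
  places are congruent to `d` modulo `ℓ`, only finitely many of its local invariants with `A` are not
  zero, and their sum is `d [L : ℚ] / ℓ` in `ℚ/ℤ`.  The zero-cycles on the smooth projective models of `W`,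
  and on all varieties over `L` that map to `C`, are mapped to zero-cycles on `C` of the same degree
  and with the same local invariants (for `W` choose a model that maps to `C`).
* So, if `ℓ` does not divide `[L : k]`, the Brauer-Manin obstruction given by `A` to the existence of
  zero-cycles of degree `d` on `W` over `L`, and on all varieties over `L` that map to `C`, does not
  vanish unless `ℓ` divides `d`.  On `C` there is a zero-cycle of degree `d` if and only if there is an
  adelic zero-cycle of degree `d` which is orthogonal to `A`, and if and only if `ℓ` divides `d`.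

So, without any hypothesis on Tate-Shafarevich groups, every everywhere locally soluble variety over
a number field is dominated, in degree `ℓ`, by everywhere locally soluble varieties, with prescribed
local behaviour at finitely many places, for which the existence of orthogonal adelic zero-cycles of
degree one (or `d` prime to `ℓ`) implies, trivially, the existence of zero-cycles of degree one (`d`),
over all number fields `L ⊇ k` with `ℓ ∤ [L : k]`.

Proof.  Let `K_0, …, K_ℓ` be the `ℓ + 1` cyclic fields of degree `ℓ` in the field of the `pq`-th roots of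
unity, where `p` and `q` are prime numbers, `p ≡ q ≡ 1` modulo `2 ℓ`, such that `q` is an `ℓ`-th power
modulo `p` and `p` is one modulo `q`; so every completion of `ℚ` contains one of these fields.  Let `P_i`
be the minimal polynomial of an integer that generates `K_i`, and let `M_i` be the product of the
polynomials `P_i(x - a - c)`, `0 ≤ c < n`, where `ℓ ∣ n` and `a ∈ k`.  Then `M` is one of the `M_i` and `M'` is
the product of the others.  The formula for the local invariants of points over finite extensions of
the completions is a library result.  The local solubility is proved as follows.  The product `F_0` of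
all `P_i(x - c)` has a simple zero in every completion `k_v`, so it takes a value `r s^ℓ`, `s ≠ 0`, at some
`u ∈ k_v`.  If `v` belongs to a certain finite set `T ⊇ S` of places then we take `a` so close to
`x(P_v) - u` that `P_v` lifts to `W`.  At the other places `a` is integral, the reduction of `M M'` is
separable, and we can specialise `t` in the residue field such that the curve `G(t, x, y) = 0` is
absolutely irreducible (theorem of Bertini and Noether over `𝓞_k[t]`, library) and its discriminant
does not vanish; the degree of `M M'` is larger than the degree of this discriminant.  So the curve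
`r w^ℓ = M(x) M'(x), G(t, x, y) = 0` over the residue field is absolutely irreducible and has smooth
points by the bound of Weil, which is proved for the curves that occur by a reduction to its known
case of plane curves (library).  At the infinite places `a` is large.
-/

set_option autoImplicit false

open Polynomial NumberField IsDedekindDomain
open scoped TensorProduct

namespace Pool.Agent.Results.MP_bd895b_nt.ZeroCyclesOnCyclicCovers

universe u v

section varieties

variable {k : Type} [Field k] [NumberField k] {m : ℕ}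

/-- `(t, x, y)` is a point over the extension `K` of `k` of the hypersurface `G(t, x, y) = 0` with
`∂G/∂y ≠ 0`. -/
def Pt (G : (MvPolynomial (Fin m) (𝓞 k))[X][X]) {K : Type*} [Field K] (φ : k →+* K)
    (t : Fin m → K) (x y : K) : Prop :=
  (G.map (mapRingHom (MvPolynomial.eval₂Hom (φ.comp (algebraMap (𝓞 k) k)) t))).evalEval x y = 0 ∧
    ((derivative G).map (mapRingHom
      (MvPolynomial.eval₂Hom (φ.comp (algebraMap (𝓞 k) k)) t))).evalEval x y ≠ 0

/-- The variety `V` with the equation `G(t, x, y) = 0` has points over all completions of `k`.  (If a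
smooth projective model of `G(t, x, y) = 0` has a point over a completion `K`, then its points over `K`
are dense for the Zariski topology, and so some of them belong to points `(t, x, y)` over `K` with
`∂G/∂y ≠ 0`.  Conversely all such points are smooth points, so they give points of the smooth
projective models.) -/
def LocallySoluble (G : (MvPolynomial (Fin m) (𝓞 k))[X][X]) : Prop :=
  (∀ v : HeightOneSpectrum (𝓞 k), ∃ (t : Fin m → v.adicCompletion k) (x y : v.adicCompletion k),
    Pt G (algebraMap k (v.adicCompletion k)) t x y) ∧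
  ∀ v : InfinitePlace k, ∃ (t : Fin m → v.Completion) (x y : v.Completion),
    Pt G (algebraMap k v.Completion) t x y

variable (r ℓ : ℕ) (f : k[X])

/-- The points over `x` lift to the cyclic cover `r w^ℓ = f(x)`. -/
def Lifts {K : Type*} [Field K] (φ : k →+* K) (x : K) : Prop :=
  ∃ w : K, w ≠ 0 ∧ (r : K) * w ^ ℓ = eval₂ φ x f

/-- The cyclic cover `W : r w^ℓ = f(x), G(t, x, y) = 0` of `V` has points over all completions of `k`. -/
def CoverLocallySoluble (G : (MvPolynomial (Fin m) (𝓞 k))[X][X]) : Prop :=
  (∀ v : HeightOneSpectrum (𝓞 k), ∃ (t : Fin m → v.adicCompletion k) (x y : v.adicCompletion k),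
    Pt G (algebraMap k (v.adicCompletion k)) t x y ∧
      Lifts r ℓ f (algebraMap k (v.adicCompletion k)) x) ∧
  ∀ v : InfinitePlace k, ∃ (t : Fin m → v.Completion) (x y : v.Completion),
    Pt G (algebraMap k v.Completion) t x y ∧ Lifts r ℓ f (algebraMap k v.Completion) x

variable (k m) in
/-- An algebraic closure of the field `k(t_1, …, t_m)`, which is the field of fractions of
`𝓞_k[t_1, …, t_m]`. -/
abbrev Closure : Type := AlgebraicClosure (FractionRing (MvPolynomial (Fin m) (𝓞 k)))

variable (k m) in
/-- The embedding of `k` in the algebraic closure of `k(t_1, …, t_m)`: the extension of the map from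
`𝓞_k` to the field of fractions `k` of `𝓞_k`. -/
noncomputable def constants : k →+* Closure k m :=
  IsFractionRing.lift (A := 𝓞 k) (K := k)
    (g := (algebraMap (MvPolynomial (Fin m) (𝓞 k)) (Closure k m)).comp MvPolynomial.C)
    ((Pool.Agent.Helper47.GL.algV_inj k m).comp (MvPolynomial.C_injective (Fin m) (𝓞 k)))

/-- The cyclic cover `W : r w^ℓ = f(x), G(t, x, y) = 0` of `V : G(t, x, y) = 0`, `ℓ` a prime, is
geometrically irreducible, and even irreducible over the algebraic closure `K` of `k(t)`: `f(x)/r` is
no `ℓ`-th power in the field `K(x, y)`. -/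
def CoverGeometricallyIrreducible (G : (MvPolynomial (Fin m) (𝓞 k))[X][X]) : Prop :=
  ∀ (E : Type u) [Field E] [Algebra (Closure k m) E] (x y : E), Transcendental (Closure k m) x →
    (G.map (mapRingHom ((algebraMap (Closure k m) E).comp
      (algebraMap (MvPolynomial (Fin m) (𝓞 k)) (Closure k m))))).evalEval x y = 0 →
    ∀ w ∈ IntermediateField.adjoin (Closure k m) {x, y}, (r : E) * w ^ ℓ ≠
      eval₂ ((algebraMap (Closure k m) E).comp (constants k m)) x f

end varieties

section places

/-- The algebra `ℚ_s ⊗ L`, which is the product of the completions of `L` at the places above `s`. -/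
abbrev LocalAlgebra (s : ℕ) [Fact s.Prime] (L : Type) [Field L] [NumberField L] : Type :=
  ℚ_[s] ⊗[ℚ] L

variable (s : ℕ) [Fact s.Prime] (L : Type) [Field L] [NumberField L]

/-- The map from `L` to `ℚ_s ⊗ L`. -/
noncomputable def toLocal : L →+* LocalAlgebra s L :=
  (Algebra.TensorProduct.includeRight : L →ₐ[ℚ] ℚ_[s] ⊗[ℚ] L).toRingHom

variable {s L} in
/-- The norm from a residue algebra of `ℚ_s ⊗ L` to the field `ℚ_s`. -/
noncomputable def normTo (I : Ideal (LocalAlgebra s L)) (b : LocalAlgebra s L ⧸ I) : ℚ_[s] :=
  Algebra.norm ℚ_[s] b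

/-- The finite places of the number field `L`: a prime number `s` and a maximal ideal of
`ℚ_s ⊗ L`. -/
structure FinitePlace where
  /-- the prime number `s` -/
  prime : ℕ
  /-- `s` is a prime number -/
  fact : Fact prime.Prime
  /-- the ideal of `ℚ_s ⊗ L` -/
  ideal : Ideal (LocalAlgebra prime L)
  /-- the ideal is maximal -/
  maximal : ideal.IsMaximal

attribute [instance] FinitePlace.fact FinitePlace.maximal

variable {L}

/-- The completion of `L` at a finite place: the residue field of the maximal ideal. -/
def Completion (v : FinitePlace L) : Type := LocalAlgebra v.prime L ⧸ v.ideal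

noncomputable instance fieldCompletion (v : FinitePlace L) : Field (Completion v) :=
  Ideal.Quotient.field v.ideal

/-- The embedding of `L` in its completion at a finite place. -/
noncomputable def embedding (v : FinitePlace L) : L →+* Completion v :=
  (Ideal.Quotient.mk v.ideal).comp (toLocal v.prime L)

variable (L) in
/-- The algebra `ℝ ⊗ L`, which is the product of the completions of `L` at the archimedean
places. -/
abbrev RealAlgebra : Type := ℝ ⊗[ℚ] L

variable (L) in
/-- The map from `L` to `ℝ ⊗ L`. -/
noncomputable def toReal : L →+* RealAlgebra L :=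
  (Algebra.TensorProduct.includeRight : L →ₐ[ℚ] ℝ ⊗[ℚ] L).toRingHom

/-- The completion of `L` at an archimedean place, given by a maximal ideal of `ℝ ⊗ L`. -/
def RealCompletion (v : MaximalSpectrum (RealAlgebra L)) : Type := RealAlgebra L ⧸ v.asIdeal

noncomputable instance fieldRealCompletion (v : MaximalSpectrum (RealAlgebra L)) :
    Field (RealCompletion v) :=
  Ideal.Quotient.field v.asIdeal

/-- The embedding of `L` in its completion at an archimedean place. -/
noncomputable def realEmbedding (v : MaximalSpectrum (RealAlgebra L)) : L →+* RealCompletion v :=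
  (Ideal.Quotient.mk v.asIdeal).comp (toReal L)

end places

section points

variable {k : Type} [Field k]

/-- The points over the field `E`, an extension of `k` through `ι`, of the smooth projective model
of the curve `C : r w^ℓ = f(x)`, `f` monic and separable of a degree divisible by `ℓ`: the affine points
and the points at infinity, which correspond to the `ℓ`-th roots of `1 / r`. -/
inductive Point (r ℓ : ℕ) (f : k[X]) {E : Type} [Field E] (ι : k →+* E) : Type
  | affine (x w : E) (h : (r : E) * w ^ ℓ = eval₂ ι x f) : Point r ℓ f ι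
  | infinite (z : E) (h : (r : E) * z ^ ℓ = 1) : Point r ℓ f ι

open Classical in
/-- The value of `M(x)` at a point of the curve `r w^ℓ = M(x) M'(x)`, up to `ℓ`-th powers.  If `M(x)`
vanishes, then this is the value of `r / M'(x)`; the quotient of these functions is the `ℓ`-th power of
`w`.  At infinity the value is `1`, since `M` is monic and its degree is divisible by `ℓ`. -/
noncomputable def value (M M' : k[X]) {r ℓ : ℕ} {f : k[X]} {E : Type} [Field E] {ι : k →+* E} :
    Point r ℓ f ι → E
  | .affine x _ _ => if eval₂ ι x M = 0 then (r : E) / eval₂ ι x M' else eval₂ ι x M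
  | .infinite _ _ => 1

/-- A point of the smooth projective model of `r w^ℓ = f(x)` over a finite extension of `F`. -/
structure FinitePoint (r ℓ : ℕ) (f : k[X]) {F : Type} [Field F] (ι : k →+* F) : Type 1 where
  /-- the finite extension `E` of `F` -/
  extension : Type
  /-- `E` is a field -/
  field : Field extension
  /-- `E` is an extension of `F` -/
  algebra : Algebra F extension
  /-- the degree of `E` over `F` is finite -/
  finite : FiniteDimensional F extension
  /-- the point over `E` -/
  point : Point r ℓ f ((algebraMap F extension).comp ι)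

attribute [instance] FinitePoint.field FinitePoint.algebra FinitePoint.finite

/-- The zero-cycles on the smooth projective model of `r w^ℓ = f(x)` over `F`: the formal sums of
points over finite extensions.  Such a point stands for its direct image, so the closed points are
given by the points over their residue fields. -/
abbrev Cycle (r ℓ : ℕ) (f : k[X]) {F : Type} [Field F] (ι : k →+* F) : Type 1 :=
  FinitePoint r ℓ f ι →₀ ℤ

variable {r ℓ : ℕ} {f : k[X]}

/-- The degree of a zero-cycle. -/
noncomputable def degree {F : Type} [Field F] {ι : k →+* F} (z : Cycle r ℓ f ι) : ℤ :=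
  z.sum fun P c => c * Module.finrank F P.extension

variable (r ℓ f) in
/-- The adelic zero-cycles over the number field `L`, an extension of `k`: a zero-cycle over each
completion of `L`. -/
structure AdelicCycle (L : Type) [Field L] [NumberField L] [Algebra k L] : Type 1 where
  /-- the zero-cycles over the completions at the finite places -/
  finite : ∀ v : FinitePlace L, Cycle r ℓ f ((embedding v).comp (algebraMap k L))
  /-- the zero-cycles over the completions at the archimedean places -/
  archimedean : ∀ v : MaximalSpectrum (RealAlgebra L),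
    Cycle r ℓ f ((realEmbedding v).comp (algebraMap k L))

variable {L : Type} [Field L] [NumberField L] [Algebra k L]

/-- The adelic zero-cycle has degree `d` at all places. -/
def HasDegree (Z : AdelicCycle r ℓ f L) (d : ℤ) : Prop :=
  (∀ v : FinitePlace L, degree (Z.finite v) = d) ∧
    ∀ v : MaximalSpectrum (RealAlgebra L), degree (Z.archimedean v) = d

/-- The degrees of the adelic zero-cycle at the finite places are congruent to `d` modulo `ℓ`. -/
def HasDegreeMod (Z : AdelicCycle r ℓ f L) (d : ℤ) : Prop :=
  ∀ v : FinitePlace L, (ℓ : ℤ) ∣ degree (Z.finite v) - d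

end points

section invariants

variable {ℓ p : ℕ} [Fact p.Prime]

/-- The character `χ` as a function on `ℤ/p` with values in the additive group `ℤ/ℓ`, extended by
`0` to zero. -/
noncomputable def index (χ : (ZMod p)ˣ →* Multiplicative (ZMod ℓ)) (x : ZMod p) : ZMod ℓ :=
  if h : x = 0 then 0 else (χ (Units.mk0 x h)).toAdd

/-- The residue class of `c s^{-v}`, where `v` is the valuation of `c ∈ ℚ_s`. -/
noncomputable def leading {s : ℕ} [Fact s.Prime] (c : ℚ_[s]) : ZMod s :=
  if h : ‖c * (s : ℚ_[s]) ^ (-c.valuation)‖ ≤ 1 then PadicInt.toZMod ⟨_, h⟩ else 0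

/-- The local invariant of the cyclic algebra `(c, χ)` over `ℚ_s`, multiplied by `ℓ`: it is
`v_s(c) χ(s)` if `s ≠ p` and `-χ(u)` if `s = p` and `c = p^v u`.  (The invariants at the real places are
zero, since the cyclic field of `χ` is real if `χ(-1) = 0`.) -/
noncomputable def localInvariant (χ : (ZMod p)ˣ →* Multiplicative (ZMod ℓ)) {s : ℕ}
    [Fact s.Prime] (c : ℚ_[s]) : ZMod ℓ :=
  if s = p then - index χ ((leading c).val : ZMod p)
  else ((c.valuation : ℤ) : ZMod ℓ) * index χ (s : ZMod p)

variable (χ : (ZMod p)ˣ →* Multiplicative (ZMod ℓ)) {k : Type} [Field k] (M M' : k[X]) {r : ℕ}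
  {f : k[X]} {L : Type} [Field L] [NumberField L] [Algebra k L]

/-- The local invariant, multiplied by `ℓ`, of the class `A = (M(x), χ)` at a point over a finite
extension of the completion of `L` at the place `v`. -/
noncomputable def invariantAt (v : FinitePlace L)
    (P : FinitePoint r ℓ f ((embedding v).comp (algebraMap k L))) : ZMod ℓ :=
  localInvariant χ (normTo v.ideal (Algebra.norm (Completion v) (value M M' P.point)))

/-- The local invariant at `v`, multiplied by `ℓ`, of the class `A` at the adelic zero-cycle `Z`. -/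
noncomputable def localTerm (Z : AdelicCycle r ℓ f L) (v : FinitePlace L) : ZMod ℓ :=
  (Z.finite v).sum fun P c => (c : ZMod ℓ) * invariantAt χ M M' v P

/-- The sum of all local invariants, multiplied by `ℓ`, of the class `A` at the adelic zero-cycle
`Z`. -/
noncomputable def pairing (Z : AdelicCycle r ℓ f L) : ZMod ℓ :=
  ∑ᶠ v : FinitePlace L, localTerm χ M M' Z v

end invariants

section statements

variable {ℓ p : ℕ} [Fact p.Prime] (χ : (ZMod p)ˣ →* Multiplicative (ZMod ℓ)) {k : Type} [Field k]
  (r : ℕ) (M M' : k[X])

/-- The cyclic algebra `(M(x), χ)` over the function field of `C : r w^ℓ = M(x) M'(x)` is unramified,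
that is, belongs to `Br(C)`: the values of `M(x)` at the valuations over `k` of the function field `F`
of `C` (or of any field `F` over `k` that contains a point `(x, w)` of `C`) are divisible by `ℓ`. -/
def Unramified (ℓ : ℕ) : Prop :=
  ∀ (F : Type v) [Field F] [Algebra k F] (x w : F), (r : F) * w ^ ℓ = aeval x (M * M') →
    ∀ O : ValuationSubring F, (∀ c : k, algebraMap k F c ∈ O) →
      ∃ t : F, O.valuation (aeval x M) = O.valuation t ^ ℓ

/-- For all number fields `L ⊇ k` and all adelic zero-cycles over `L` on the smooth projective model of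
`C : r w^ℓ = M(x) M'(x)` with degrees congruent to `d` modulo `ℓ` only finitely many local invariants of the
class `A` are not zero, and their sum, multiplied by `ℓ`, is `d [L : ℚ]`. -/
def SumFormula : Prop :=
  ∀ (L : Type) [Field L] [NumberField L] [Algebra k L] (Z : AdelicCycle r ℓ (M * M') L) (d : ℤ),
    HasDegreeMod Z d → {v : FinitePlace L | localTerm χ M M' Z v ≠ 0}.Finite ∧
      pairing χ M M' Z = d * Module.finrank ℚ L

/-- For all number fields `L ⊇ k` such that `ℓ` does not divide `[L : k]` and all integers `d` the following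
are equivalent: there is a zero-cycle of degree `d` over `L` on the smooth projective model of
`C : r w^ℓ = M(x) M'(x)`; there is an adelic zero-cycle of degree `d` orthogonal to `A`; `ℓ` divides
`d`. -/
def LocalGlobal : Prop :=
  ∀ (L : Type) [Field L] [NumberField L] [Algebra k L], ¬ ℓ ∣ Module.finrank k L → ∀ d : ℤ,
    ((∃ z : Cycle r ℓ (M * M') (algebraMap k L), degree z = d) ↔ (ℓ : ℤ) ∣ d) ∧
    ((∃ Z : AdelicCycle r ℓ (M * M') L, HasDegree Z d ∧ pairing χ M M' Z = 0) ↔ (ℓ : ℤ) ∣ d)

end statements

/-- **Zero-cycles on everywhere locally soluble cyclic covers of arbitrary varieties.**  Let `ℓ` be a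
prime number, `k` a number field of a degree not divisible by `ℓ`, and `V` the variety of dimension
`m + 1` with the equation `G(t, x, y) = 0`, `G ∈ 𝓞_k[t_1, …, t_m][x][y]` monic in `y` and irreducible over the
algebraic closure of `k(t_1, …, t_m)`.  Let `V` have points over all completions of `k`, let `S` be a
finite set of finite places, and let `P_v ∈ V(k_v)` be points at the places `v ∈ S` and at all
infinite places `v`.  For every `N` there are prime numbers `r, p > N`, a surjective character
`χ : (ℤ/p)^* → ℤ/ℓ` with `χ(-1) = 0` and coprime monic polynomials `M`, `M'` over `k` of degrees `≥ N` divisible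
by `ℓ`, with `M M'` separable, such that the cyclic cover `W : r w^ℓ = M(x) M'(x), G(t, x, y) = 0` of `V` is
geometrically irreducible, has points over all completions of `k`, and the points `P_v` lift to `W`;
the cyclic algebra `A = (M(x), χ)` belongs to the Brauer group of `C : r w^ℓ = M(x) M'(x)` (hence of `W`);
the sum of the local invariants of `A` is `d [L : ℚ] / ℓ` for all adelic zero-cycles of degree `d`
(modulo `ℓ`) on `C` (hence on `W`) over all number fields `L ⊇ k`; and if `ℓ` does not divide `[L : k]`
then there is a zero-cycle of degree `d` on `C` over `L` if and only if there is an adelic one which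
is orthogonal to `A`, and if and only if `ℓ` divides `d`. -/
theorem result (k : Type) [Field k] [NumberField k] (ℓ : ℕ) (hℓ : ℓ.Prime)
    (hk : ¬ ℓ ∣ Module.finrank ℚ k) (m : ℕ) (G : (MvPolynomial (Fin m) (𝓞 k))[X][X])
    (hG : G.Monic)
    (hirr : Irreducible (G.map (mapRingHom
      (algebraMap (MvPolynomial (Fin m) (𝓞 k)) (Closure k m)))))
    (hV : LocallySoluble G) (S : Finset (HeightOneSpectrum (𝓞 k)))
    (t : ∀ v : HeightOneSpectrum (𝓞 k), Fin m → v.adicCompletion k)
    (x y : ∀ v : HeightOneSpectrum (𝓞 k), v.adicCompletion k)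
    (hP : ∀ v ∈ S, Pt G (algebraMap k (v.adicCompletion k)) (t v) (x v) (y v))
    (t' : ∀ v : InfinitePlace k, Fin m → v.Completion) (x' y' : ∀ v : InfinitePlace k, v.Completion)
    (hP' : ∀ v, Pt G (algebraMap k v.Completion) (t' v) (x' v) (y' v)) (N : ℕ) :
    ∃ (r p : ℕ) (_ : Fact p.Prime) (χ : (ZMod p)ˣ →* Multiplicative (ZMod ℓ)) (M M' : k[X]),
      r.Prime ∧ N < r ∧ N < p ∧ Function.Surjective χ ∧ χ (-1) = 1 ∧ M.Monic ∧ M'.Monic ∧
      (M * M').Separable ∧ N ≤ M.natDegree ∧ N ≤ M'.natDegree ∧ ℓ ∣ M.natDegree ∧
      ℓ ∣ M'.natDegree ∧ CoverGeometricallyIrreducible.{u} r ℓ (M * M') G ∧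
      CoverLocallySoluble r ℓ (M * M') G ∧
      (∀ v ∈ S, Lifts r ℓ (M * M') (algebraMap k (v.adicCompletion k)) (x v)) ∧
      (∀ v : InfinitePlace k, Lifts r ℓ (M * M') (algebraMap k v.Completion) (x' v)) ∧
      Unramified.{v} r M M' ℓ ∧ SumFormula χ r M M' ∧ LocalGlobal χ r M M' := by
  classical
  have hfact : Fact ℓ.Prime := ⟨hℓ⟩
  have hφ : ∀ v : HeightOneSpectrum (𝓞 k), (algebraMap k (v.adicCompletion k)).comp
      (algebraMap (𝓞 k) k) = algebraMap (𝓞 k) (v.adicCompletion k) := fun v =>
    (IsScalarTower.algebraMap_eq _ _ _).symm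
  have hpts : ∀ v : HeightOneSpectrum (𝓞 k), ∃ z : (Fin m → v.adicCompletion k) ×
      v.adicCompletion k × v.adicCompletion k,
      Pool.Agent.Helper47.GL.PtV G (algebraMap (𝓞 k) (v.adicCompletion k)) z.1 z.2.1 z.2.2 ∧
        (v ∈ S → z.2.1 = x v) := by
    intro v
    by_cases hvS : v ∈ S
    · have h1 := hP v hvS
      rw [Pt, hφ] at h1
      exact ⟨(t v, x v, y v), h1, fun _ => rfl⟩
    · obtain ⟨t1, x1, y1, hxy⟩ := hV.1 v
      rw [Pt, hφ] at hxy
      exact ⟨(t1, x1, y1), hxy, fun h => absurd h hvS⟩
  choose z hz hzS using hpts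
  obtain ⟨p, q, hp, hq, χ, ψ, hNp, -, hGood⟩ := Pool.Agent.Helper47.GL.exists_pair ℓ N
  obtain ⟨θ, Pz, hθ, hPm, hPz⟩ := Pool.Agent.Helper47.GL.exists_theta χ ψ
  obtain ⟨M₀, hM₀⟩ := Pool.Agent.Helper47.GL.final_genV.{u} hGood hθ hPm hPz G hG hirr
  obtain ⟨r, hr, hNr, hr1⟩ := Pool.Agent.Helper47.GL.exists_r' hGood N
  have hb : Pool.Agent.K3h48.MN.Obs χ ψ (r : k) :=
    (Pool.Agent.K3h48.MN.obs_nat hk hr.ne_zero).2 ⟨1, one_ne_zero, by rw [hr1]; exact one_ne_zero⟩
  set n : ℕ := ℓ * (N + M₀ + 1) with hn
  have hnle : N + M₀ + 1 ≤ n := by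
    rw [hn]
    exact Nat.le_mul_of_pos_left _ hℓ.pos
  obtain ⟨a, h1, h2, h3, h4⟩ := hM₀ n (by omega) r hr hb S (fun v => (z v).1)
    (fun v => (z v).2.1) (fun v => (z v).2.2) hz x'
  set GG := Pool.Agent.Helper47.GL.GS θ n a with hGG
  have hfac : ∀ i, ∀ g ∈ GG i, Pool.Agent.K3h48.MN.IsFactor (minpoly ℚ (θ i)) g :=
    Pool.Agent.Helper47.GL.GS_factor hGood hθ hb n a
  obtain ⟨hsep, hdeg⟩ := Pool.Agent.K3h48.MN.final_separable hGood hθ hb GG hfac
  have hcard : ∀ i, (GG i).card = n := fun i => Pool.Agent.Helper47.GL.GS_card n a i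
  have hne : ∀ i, (GG i).Nonempty := fun i => by
    rw [← Finset.card_pos, hcard]
    omega
  set i₀ : Option (ZMod ℓ) := some (-1) with hi₀
  set M : k[X] := ∏ g ∈ GG i₀, g with hM
  set M' : k[X] := ∏ j ∈ Finset.univ.erase i₀, ∏ g ∈ GG j, g with hM'
  have hf : M * M' = ∏ i, ∏ g ∈ GG i, g := Finset.mul_prod_erase _ _ (Finset.mem_univ i₀)
  have hMm : M.Monic := monic_prod_of_monic _ _ fun g hg => (hfac i₀ g hg).monic
  have hM'm : M'.Monic := monic_prod_of_monic _ _ fun i _ => monic_prod_of_monic _ _ fun g hg =>
    (hfac i g hg).monic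
  have hMd : M.natDegree = ℓ * n := by
    rw [hM, natDegree_prod_of_monic _ _ fun g hg => (hfac i₀ g hg).monic,
      Finset.sum_congr rfl fun g hg => Pool.Agent.K3h48.MN.factor_degree hGood hθ hb (hfac i₀ g hg),
      Finset.sum_const, hcard, smul_eq_mul, mul_comm]
  have hM'd : M'.natDegree = ℓ * (ℓ * n) := by
    have h5 : M.natDegree + M'.natDegree = ℓ * ((ℓ + 1) * n) := by
      rw [← hMm.natDegree_mul hM'm, hf, hdeg]
      congr 1
      rw [Finset.sum_congr rfl fun i _ => hcard i, Finset.sum_const, smul_eq_mul, Finset.card_univ,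
        Fintype.card_option, ZMod.card]
    rw [hMd] at h5
    have h6 : ℓ * ((ℓ + 1) * n) = ℓ * n + ℓ * (ℓ * n) := by ring
    omega
  have hℓ1 : 1 ≤ ℓ := hℓ.pos
  have hsep' : (M * M').Separable := by
    rw [hf]
    exact hsep
  have hr0 : (r : k) ≠ 0 := hb.ne_zero
  -- the local invariants
  have hval : ∀ {E : Type} [Field E] (ι : k →+* E) {x w : E}
      (h : (r : E) * w ^ ℓ = eval₂ ι x (M * M')),
      value M M' (.affine x w h : Point r ℓ (M * M') ι) =
        Pool.Agent.K3h48.BM.val ι (r : k) GG x i₀ := by
    intro E _ ι x w h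
    have h5 : eval₂ ι x M = ∏ g ∈ GG i₀, eval₂ ι x g := eval₂_finsetProd _ _ _ _
    have h6 : eval₂ ι x M' = ∏ j ∈ Finset.univ.erase i₀, ∏ g ∈ GG j, eval₂ ι x g := by
      rw [hM', eval₂_finsetProd]
      exact Finset.prod_congr rfl fun j _ => eval₂_finsetProd _ _ _ _
    rw [value, Pool.Agent.K3h48.BM.val, h5, h6, map_natCast]
    by_cases h7 : ∏ g ∈ GG i₀, eval₂ ι x g = 0
    · rw [if_pos h7, if_pos h7]
      refine congrArg (fun t : E => (r : E) / t) ?_
      exact Pool.Agent.Helper47.GL.prod_erase_eq _ _ _ _
    · rw [if_neg h7, if_neg h7]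
  -- the places of a number field
  have hpl : ∀ (L : Type) [Field L] [NumberField L] [Algebra k L],
      (∀ v : FinitePlace L, Nonempty (Point r ℓ (M * M')
        ((embedding v).comp (algebraMap k L)))) ∧
      ∀ v : MaximalSpectrum (RealAlgebra L), Nonempty (Point r ℓ (M * M')
        ((realEmbedding v).comp (algebraMap k L))) := by
    intro L _ _ _
    have key : ∀ (E : Type) [Field E] (ι : k →+* E),
        ((∃ (s : ℕ) (_ : Fact s.Prime), Nonempty (ℚ_[s] →+* E)) ∨ Nonempty (ℝ →+* E)) →
        Nonempty (Point r ℓ (M * M') ι) := by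
      intro E _ ι hE
      let _ : Algebra k E := ι.toAlgebra
      obtain ⟨x, hx⟩ := Pool.Agent.K3h48.MN.final_local hGood hθ GG hfac hne (L := E) hE
      refine ⟨.affine x 0 ?_⟩
      rw [zero_pow hℓ.ne_zero, mul_zero, hf]
      exact hx.symm
    exact ⟨fun v => key _ _ (Or.inl ⟨v.prime, v.fact,
      ⟨algebraMap ℚ_[v.prime] (LocalAlgebra v.prime L ⧸ v.ideal)⟩⟩),
      fun v => key _ _ (Or.inr ⟨(Ideal.Quotient.mk v.asIdeal).comp
        (Algebra.TensorProduct.includeLeft : ℝ →ₐ[ℚ] ℝ ⊗[ℚ] L).toRingHom⟩)⟩
  -- points as cycles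
  have hcyc : ∀ (d : ℤ) (F : Type) [Field F] (ι : k →+* F),
      Nonempty (Point r ℓ (M * M') ι) →
      ∃ (P : FinitePoint r ℓ (M * M') ι), degree (Finsupp.single P d) = d := by
    intro d F _ ι ⟨P⟩
    refine ⟨⟨F, inferInstance, Algebra.id F, inferInstance, P⟩, ?_⟩
    rw [degree, Finsupp.sum_single_index (by rw [zero_mul])]
    change d * (Module.finrank F F : ℤ) = d
    rw [Module.finrank_self, Nat.cast_one, mul_one]
  have hexist : ∀ (L : Type) [Field L] [NumberField L] [Algebra k L] (d : ℤ),
      ∃ Z : AdelicCycle r ℓ (M * M') L, HasDegree Z d := by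
    intro L _ _ _ d
    choose Q hQ using fun v => hcyc d _ _ ((hpl L).1 v)
    choose Q' hQ' using fun v => hcyc d _ _ ((hpl L).2 v)
    exact ⟨⟨fun v => Finsupp.single (Q v) d, fun v => Finsupp.single (Q' v) d⟩,
      ⟨fun v => hQ v, fun v => hQ' v⟩⟩
  have hsum : SumFormula χ r M M' := by
    intro L _ _ _ Z d hZ
    have haL : (r : L) ≠ 0 := by exact_mod_cast hr.ne_zero
    let e : (Σ s : Nat.Primes, Pool.Agent.K3h48.BM.Place ℚ_[(s : ℕ)] L) ≃ FinitePlace L :=
      { toFun := fun x => ⟨x.1, ⟨x.1.2⟩, x.2.asIdeal, x.2.isMaximal⟩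
        invFun := fun v => ⟨⟨v.prime, v.fact.out⟩, ⟨v.ideal, v.maximal⟩⟩
        left_inv := fun _ => rfl
        right_inv := fun _ => rfl }
    have hpt : ∀ (x : (Σ s : Nat.Primes, Pool.Agent.K3h48.BM.Place ℚ_[(s : ℕ)] L))
          (Q : FinitePoint r ℓ (M * M') ((embedding (e x)).comp (algebraMap k L))),
          invariantAt χ M M' (e x) Q =
          (Module.finrank (Completion (e x)) Q.extension : ZMod ℓ) *
          ((((Algebra.norm ℚ_[(x.1 : ℕ)] (Pool.Agent.K3h48.BM.emb x.2
            (r : L))).valuation : ℤ) : ZMod ℓ) *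
            Pool.Agent.K3h48.MN.wt χ ψ 1 x.1) := by
      rintro x ⟨E, hE1, hE2, hE3, Q⟩
      let _ : Algebra (Pool.Agent.K3h48.BM.Comp x.2) E := hE2
      have : FiniteDimensional (Pool.Agent.K3h48.BM.Comp x.2) E := hE3
      have hrr : ((Pool.Agent.K3h48.BM.emb x.2).comp (algebraMap k L)) (r : k) =
          Pool.Agent.K3h48.BM.emb x.2 (r : L) := by
        rw [RingHom.comp_apply, map_natCast]
      cases Q with
      | affine y w h =>
        have h5 := Pool.Agent.K3h48.BM.affine_tower (r := (x.1 : ℕ))
          (F := Pool.Agent.K3h48.BM.Comp x.2) (E := E) hGood hθ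
          hb hfac (dvd_refl ℓ) ((Pool.Agent.K3h48.BM.emb x.2).comp (algebraMap k L)) (x := y) (y := w)
          (by
            rw [map_natCast, ← hf]
            exact h) (one_ne_zero (α := ZMod ℓ))
        rw [hrr] at h5
        refine Eq.trans ?_ h5
        have h6 := hval ((algebraMap (Completion (e x)) E).comp
          ((embedding (e x)).comp (algebraMap k L))) h
        change localInvariant χ (normTo (e x).ideal (Algebra.norm (Completion (e x))
          (value M M' (.affine y w h : Point r ℓ (M * M') _)))) = _
        rw [h6]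
        rfl
      | infinite z h =>
        have h5 := Pool.Agent.K3h48.BM.infinite_tower (r := (x.1 : ℕ))
          (F := Pool.Agent.K3h48.BM.Comp x.2) (E := E) hGood
          hθ hr0 (n := ℓ) (dvd_refl ℓ) ((Pool.Agent.K3h48.BM.emb x.2).comp (algebraMap k L)) (y := z)
          (by
            rw [map_natCast]
            exact h) (one_ne_zero (α := ZMod ℓ))
        rw [hrr] at h5
        exact h5
    have hloc : ∀ x : (Σ s : Nat.Primes, Pool.Agent.K3h48.BM.Place ℚ_[(s : ℕ)] L),
          localTerm χ M M' Z (e x) = d *
          ((((Algebra.norm ℚ_[(x.1 : ℕ)] (Pool.Agent.K3h48.BM.emb x.2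
            (r : L))).valuation : ℤ) : ZMod ℓ) *
            Pool.Agent.K3h48.MN.wt χ ψ 1 x.1) := by
      intro x
      have h5 : ((degree (Z.finite (e x)) : ℤ) : ZMod ℓ) = (d : ZMod ℓ) := by
        have h6 := hZ (e x)
        rw [← ZMod.intCast_zmod_eq_zero_iff_dvd, Int.cast_sub, sub_eq_zero] at h6
        exact h6
      rw [← h5, localTerm, degree, Finsupp.sum, Finsupp.sum, Int.cast_sum, Finset.sum_mul]
      refine Finset.sum_congr rfl fun Q _ => ?_
      rw [hpt x Q]
      push_cast
      ring
    have hfin' : {v : Σ s : Nat.Primes, Pool.Agent.K3h48.BM.Place ℚ_[(s : ℕ)] L |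
        (((Algebra.norm ℚ_[(v.1 : ℕ)] (Pool.Agent.K3h48.BM.emb v.2
            (r : L))).valuation : ℤ) : ZMod ℓ) *
            Pool.Agent.K3h48.MN.wt χ ψ 1 v.1 ≠ 0}.Finite :=
      Pool.Agent.K3h48.BM.finite_places (p := p) _ haL fun v _ hv => by
        rw [hv, Int.cast_zero, zero_mul]
    refine ⟨?_, ?_⟩
    · refine (hfin'.image e).subset fun v hv => ⟨e.symm v, fun h5 => hv ?_, rfl⟩
      have h6 := hloc (e.symm v)
      rw [h5, mul_zero] at h6
      exact h6
    · have h5 := Pool.Agent.K3h48.BM.sum_places (Pool.Agent.K3h48.MN.wt χ ψ 1) haL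
      have h6 : Algebra.norm ℚ (r : L) = (r : ℚ) ^ Module.finrank ℚ L := by
        rw [← map_natCast (algebraMap ℚ L), Algebra.norm_algebraMap]
      rw [h6, Pool.Agent.K3h48.MN.ssum_pow _ (Nat.cast_ne_zero.2 hr.ne_zero), hr1, mul_one] at h5
      refine Eq.trans ?_ (congrArg (fun y : ZMod ℓ => (d : ZMod ℓ) * y) h5)
      rw [pairing, ← finsum_comp_equiv e]
      refine (finsum_congr fun v => hloc v).trans ?_
      rw [← mul_finsum' _ _ hfin']
      exact congrArg (fun y : ZMod ℓ => (d : ZMod ℓ) * y)
        (Pool.Agent.K3h48.BM.finsum_sigma hfin')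
  refine ⟨r, p, hp, χ, M, M', hr, hNr, hNp, hGood.surj_left, ?_, hMm, hM'm, hsep', ?_, ?_, ?_, ?_, ?_,
    ⟨?_, ?_⟩, ?_, ?_, ?_, ?_, ?_⟩
  · have h5 := hGood.neg_left
    have h6 : (-1 : ZMod p) = ((-1 : (ZMod p)ˣ) : ZMod p) := by
      rw [Units.val_neg, Units.val_one]
    rw [h6, Pool.Agent.K3h48.MN.ind_unit] at h5
    exact Multiplicative.toAdd.injective h5
  · rw [hMd]
    calc N ≤ n := by omega
      _ ≤ ℓ * n := Nat.le_mul_of_pos_left _ hℓ.pos
  · rw [hM'd]
    calc N ≤ n := by omega
      _ ≤ ℓ * n := Nat.le_mul_of_pos_left _ hℓ.pos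
      _ ≤ ℓ * (ℓ * n) := Nat.le_mul_of_pos_left _ hℓ.pos
  · rw [hMd]
    exact Dvd.intro _ rfl
  · rw [hM'd]
    exact Dvd.intro _ rfl
  · rw [hf]
    intro E _ _ x1 y1 hx1 hxy1 w1 hw1
    exact h4 E x1 y1 hx1 hxy1 w1 hw1 _ fun c => ⟨constants k m c, rfl⟩
  · intro v
    obtain ⟨t1, x1, y1, w, h5, h6, h7⟩ := h1 v
    refine ⟨t1, x1, y1, ?_, w, h6, ?_⟩
    · rw [Pt, hφ]
      exact h5
    · rw [h7, hf]
  · intro v
    obtain ⟨w, h6, h7⟩ := h3 v
    exact ⟨t' v, x' v, y' v, hP' v, w, h6, by rw [h7, hf]⟩
  · intro v hv
    obtain ⟨w, h6, h7⟩ := h2 v hv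
    refine ⟨w, h6, ?_⟩
    rw [hf, ← hzS v hv, h7]
  · intro v
    obtain ⟨w, h6, h7⟩ := h3 v
    exact ⟨w, h6, by rw [h7, hf]⟩
  · intro F _ _ x w hxw O hO
    exact Pool.Agent.Helper47.GL.unr hr0 hMm (by rw [hMd]; exact Dvd.intro _ rfl) hsep'.isCoprime
      (by rw [map_natCast]; exact hxw) O hO
  · exact hsum
  · intro L _ _ _ hL d
    have hdL : ((Module.finrank ℚ L : ℕ) : ZMod ℓ) ≠ 0 := by
      rw [Ne, ZMod.natCast_eq_zero_iff, ← Module.finrank_mul_finrank ℚ k L, hℓ.dvd_mul, not_or]
      exact ⟨hk, hL⟩
    have hmod : ∀ Z : AdelicCycle r ℓ (M * M') L, HasDegree Z d → HasDegreeMod Z d := by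
      intro Z hZ v
      rw [hZ.1 v, sub_self]
      exact dvd_zero _
    refine ⟨⟨?_, ?_⟩, ⟨?_, ?_⟩⟩
    · rintro ⟨z, rfl⟩
      rw [degree, Finsupp.sum]
      refine Finset.dvd_sum fun Q _ => Dvd.dvd.mul_left ?_ _
      rw [Int.natCast_dvd_natCast]
      by_contra hQ
      obtain ⟨E, hE1, hE2, hE3, Q⟩ := Q
      change ¬ ℓ ∣ Module.finrank L E at hQ
      have hE4 : NumberField E := NumberField.of_module_finite L E
      let _ : Algebra k E := ((algebraMap L E).comp (algebraMap k L)).toAlgebra
      have hst : IsScalarTower k L E := IsScalarTower.of_algebraMap_eq' rfl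
      have hkL : FiniteDimensional k L := Module.Finite.of_restrictScalars_finite ℚ k L
      have hkE : ¬ ℓ ∣ Module.finrank k E := by
        rw [← Module.finrank_mul_finrank k L E, hℓ.dvd_mul, not_or]
        exact ⟨hL, hQ⟩
      cases Q with
      | affine x y h =>
        refine Pool.Agent.Helper47.GL.no_points hGood hθ hb n a E hkE x y ?_
        rw [← hGG, ← hf]
        exact h
      | infinite z h =>
        refine Pool.Agent.K3h48.MN.final_no_infinity hGood hθ (hb.ext E hkE) z ?_
        rw [map_natCast]
        exact h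
    · rintro ⟨c, rfl⟩
      obtain ⟨g, hg⟩ := hne none
      have h1 := Pool.Agent.K3h48.MN.factor_ext hGood hθ hb L hL (hfac none g hg)
      have h2 : (g.map (algebraMap k L)).natDegree = ℓ := by
        rw [natDegree_map]
        exact Pool.Agent.K3h48.MN.factor_degree hGood hθ hb (hfac none g hg)
      have h3 : Fact (Irreducible (g.map (algebraMap k L))) := ⟨h1.irreducible⟩
      have h4 : FiniteDimensional L (AdjoinRoot (g.map (algebraMap k L))) :=
        (AdjoinRoot.powerBasis h1.irreducible.ne_zero).finite
      have h5 : Module.finrank L (AdjoinRoot (g.map (algebraMap k L))) = ℓ := by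
        rw [(AdjoinRoot.powerBasis h1.irreducible.ne_zero).finrank, AdjoinRoot.powerBasis_dim, h2]
      let Q : FinitePoint r ℓ (M * M') (algebraMap k L) :=
        ⟨AdjoinRoot (g.map (algebraMap k L)), inferInstance, inferInstance, h4,
          .affine (AdjoinRoot.root _) 0 (by
            rw [zero_pow hℓ.ne_zero, mul_zero, hf, Pool.Agent.K3h48.BM.eval_f]
            symm
            refine Finset.prod_eq_zero (Finset.mem_univ none) (Finset.prod_eq_zero hg ?_)
            rw [← eval₂_map, AdjoinRoot.algebraMap_eq]
            exact AdjoinRoot.eval₂_root _)⟩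
      refine ⟨Finsupp.single Q c, ?_⟩
      rw [degree, Finsupp.sum_single_index (by rw [zero_mul])]
      change c * (Module.finrank L (AdjoinRoot (g.map (algebraMap k L))) : ℤ) = ℓ * c
      rw [h5, mul_comm]
    · rintro ⟨Z, hZ, hO⟩
      rw [(hsum L Z d (hmod Z hZ)).2] at hO
      rw [← ZMod.intCast_zmod_eq_zero_iff_dvd]
      exact (mul_eq_zero.1 hO).resolve_right hdL
    · intro hd
      obtain ⟨Z, hZ⟩ := hexist L d
      refine ⟨Z, hZ, ?_⟩
      rw [(hsum L Z d (hmod Z hZ)).2, (ZMod.intCast_zmod_eq_zero_iff_dvd _ _).2 hd, zero_mul]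

end Pool.Agent.Results.MP_bd895b_nt.ZeroCyclesOnCyclicCovers
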